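import Pool.Agent.Q248.RL.Stm2

set_option autoImplicit false

/-!
# Congruence of symmetric matrices over a commutative ring, splitting of unimodular parts
-/

open Matrix

namespace Pool.Agent.Q177.RL

variable {R : Type} [CommRing R]

/-- the bilinear form of a matrix -/
def gf {ι : Type} [Fintype ι] (M : Matrix ι ι R) (x y : ι → R) : R := x ⬝ᵥ (M *ᵥ y)

section gf
variable {ι : Type} [Fintype ι] (M : Matrix ι ι R)

theorem gf_add_left (x x' y : ι → R) : gf M (x + x') y = gf M x y + gf M x' y := by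
  simp [gf, add_dotProduct]

theorem gf_add_right (x y y' : ι → R) : gf M x (y + y') = gf M x y + gf M x y' := by
  simp [gf, Matrix.mulVec_add, dotProduct_add]

theorem gf_smul_left (a : R) (x y : ι → R) : gf M (a • x) y = a * gf M x y := by
  simp [gf, smul_dotProduct]

theorem gf_smul_right (a : R) (x y : ι → R) : gf M x (a • y) = a * gf M x y := by
  simp [gf, Matrix.mulVec_smul, dotProduct_smul]

theorem gf_zero_left (y : ι → R) : gf M 0 y = 0 := by simp [gf]

theorem gf_zero_right (x : ι → R) : gf M x 0 = 0 := by simp [gf]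

theorem gf_comm (h : M.IsSymm) (x y : ι → R) : gf M x y = gf M y x := by
  unfold gf
  rw [dotProduct_comm, dotProduct_comm y, dotProduct_comm, dotProduct_comm (M *ᵥ x),
    dotProduct_mulVec, ← Matrix.mulVec_transpose, h.eq, dotProduct_comm]

theorem gf_single [DecidableEq ι] (i j : ι) : gf M (Pi.single i 1) (Pi.single j 1) = M i j := by
  simp [gf]

theorem gf_smul_mat (a : R) (x y : ι → R) : gf (a • M) x y = a * gf M x y := by
  simp [gf, Matrix.smul_mulVec, dotProduct_smul]

end gf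

/-- congruence of square matrices -/
def Cong {ι κ : Type} [Fintype ι] [DecidableEq ι] [Fintype κ] [DecidableEq κ]
    (M : Matrix ι ι R) (N : Matrix κ κ R) : Prop :=
  ∃ (P : Matrix ι κ R) (Q : Matrix κ ι R), P * Q = 1 ∧ Q * P = 1 ∧ Pᵀ * M * P = N

section Cong
variable {ι κ μ ν : Type} [Fintype ι] [DecidableEq ι] [Fintype κ] [DecidableEq κ]
  [Fintype μ] [DecidableEq μ] [Fintype ν] [DecidableEq ν]

theorem Cong.refl (M : Matrix ι ι R) : Cong M M := ⟨1, 1, by simp, by simp, by simp⟩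

theorem Cong.symm {M : Matrix ι ι R} {N : Matrix κ κ R} (h : Cong M N) : Cong N M := by
  obtain ⟨P, Q, h1, h2, rfl⟩ := h
  refine ⟨Q, P, h2, h1, ?_⟩
  calc Qᵀ * (Pᵀ * M * P) * Q = (P * Q)ᵀ * M * (P * Q) := by
        rw [Matrix.transpose_mul]; simp only [Matrix.mul_assoc]
    _ = M := by rw [h1]; simp

theorem Cong.trans {M : Matrix ι ι R} {N : Matrix κ κ R} {L : Matrix μ μ R}
    (h : Cong M N) (h' : Cong N L) : Cong M L := by
  obtain ⟨P, Q, h1, h2, rfl⟩ := h
  obtain ⟨P', Q', h1', h2', rfl⟩ := h'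
  refine ⟨P * P', Q' * Q, ?_, ?_, ?_⟩
  · calc P * P' * (Q' * Q) = P * (P' * Q') * Q := by simp only [Matrix.mul_assoc]
      _ = 1 := by rw [h1']; simp [h1]
  · calc Q' * Q * (P * P') = Q' * (Q * P) * P' := by simp only [Matrix.mul_assoc]
      _ = 1 := by rw [h2]; simp [h2']
  · rw [Matrix.transpose_mul]; simp only [Matrix.mul_assoc]

theorem Cong.blocks {M : Matrix ι ι R} {N : Matrix κ κ R} {M' : Matrix μ μ R} {N' : Matrix ν ν R}
    (h : Cong M N) (h' : Cong M' N') :
    Cong (fromBlocks M 0 0 M') (fromBlocks N 0 0 N') := by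
  obtain ⟨P, Q, h1, h2, rfl⟩ := h
  obtain ⟨P', Q', h1', h2', rfl⟩ := h'
  refine ⟨fromBlocks P 0 0 P', fromBlocks Q 0 0 Q', ?_, ?_, ?_⟩
  · simp [fromBlocks_multiply, h1, h1']
  · simp [fromBlocks_multiply, h2, h2']
  · simp [fromBlocks_multiply, fromBlocks_transpose]

theorem Cong.reindex (M : Matrix ι ι R) (σ : κ ≃ ι) : Cong M (M.submatrix σ σ) := by
  refine ⟨(1 : Matrix ι ι R).submatrix id σ, (1 : Matrix ι ι R).submatrix σ id, ?_, ?_, ?_⟩
  · rw [Matrix.submatrix_mul_equiv]; simp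
  · have h := Matrix.submatrix_mul_equiv (1 : Matrix ι ι R) (1 : Matrix ι ι R) σ (Equiv.refl ι) σ
    simp only [Equiv.coe_refl] at h
    rw [h]; simp
  · have h := Matrix.submatrix_mul_equiv (1 : Matrix ι ι R) M σ (Equiv.refl ι) (Equiv.refl ι)
    have h' := Matrix.submatrix_mul_equiv M (1 : Matrix ι ι R) σ (Equiv.refl ι) σ
    simp only [Equiv.coe_refl, Matrix.submatrix_id_id] at h h'
    rw [Matrix.transpose_submatrix, Matrix.transpose_one, h, Matrix.one_mul, h', Matrix.mul_one]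

omit [DecidableEq ι] [DecidableEq κ] in
theorem gf_cong {M : Matrix ι ι R} (P : Matrix ι κ R) (x y : κ → R) :
    gf (Pᵀ * M * P) x y = gf M (P *ᵥ x) (P *ᵥ y) := by
  unfold gf
  rw [Matrix.mul_assoc, ← Matrix.mulVec_mulVec, ← Matrix.mulVec_mulVec]
  rw [Matrix.dotProduct_mulVec x, Matrix.vecMul_transpose]

theorem Cong.card [Nontrivial R] {M : Matrix ι ι R} {N : Matrix κ κ R} (h : Cong M N) :
    Fintype.card ι = Fintype.card κ := by
  obtain ⟨P, Q, h1, h2, -⟩ := h
  have e := (Matrix.toLin'OfInv h1 h2).finrank_eq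
  simpa using e

theorem Cong.det [Nontrivial R] {M : Matrix ι ι R} {N : Matrix κ κ R} (h : Cong M N) :
    ∃ u : R, IsUnit u ∧ N.det = u ^ 2 * M.det := by
  have hc := h.card
  obtain ⟨σ⟩ := Fintype.card_eq.mp hc.symm
  have h' := (Cong.reindex M σ).symm.trans h
  obtain ⟨P, Q, h1, h2, h3⟩ := h'
  refine ⟨P.det, ?_, ?_⟩
  · have := congrArg Matrix.det h1
    rw [Matrix.det_mul, Matrix.det_one] at this
    exact IsUnit.of_mul_eq_one _ this
  · rw [← h3, Matrix.det_mul, Matrix.det_mul, Matrix.det_transpose, Matrix.det_submatrix_equiv_self]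
    ring

theorem Cong.symm_mat {M : Matrix ι ι R} {N : Matrix κ κ R} (h : Cong M N) (hM : M.IsSymm) :
    N.IsSymm := by
  obtain ⟨P, Q, h1, h2, rfl⟩ := h
  unfold Matrix.IsSymm
  rw [Matrix.transpose_mul, Matrix.transpose_mul, Matrix.transpose_transpose, hM.eq,
    Matrix.mul_assoc]

end Cong

/-- splitting off a unimodular part -/
theorem split [IsDomain R] [IsPrincipalIdealRing R] {ι : Type} [Fintype ι] [DecidableEq ι] {k : ℕ}
    (M : Matrix ι ι R) (hM : M.IsSymm) (X : Fin k → ι → R) (G : Matrix (Fin k) (Fin k) R)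
    (hG : ∀ j l, gf M (X j) (X l) = G j l) (hdet : IsUnit G.det) :
    ∃ (m : ℕ) (N : Matrix (Fin m) (Fin m) R), Cong M (fromBlocks G 0 0 N) := by
  classical
  set XX : Matrix ι (Fin k) R := Matrix.of fun i j => X j i with hXX
  have hGX : XXᵀ * M * XX = G := by
    ext j l
    rw [← hG j l]
    simp only [gf, hXX, Matrix.mul_apply, Matrix.transpose_apply, Matrix.of_apply, dotProduct,
      Matrix.mulVec, Finset.sum_mul, Finset.mul_sum]
    rw [Finset.sum_comm]
    exact Finset.sum_congr rfl fun i _ => Finset.sum_congr rfl fun j _ => by ring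
  have hGi : G⁻¹ * G = 1 := Matrix.nonsing_inv_mul _ hdet
  have hGi' : G * G⁻¹ = 1 := Matrix.mul_nonsing_inv _ hdet
  obtain ⟨A, hA⟩ : ∃ A : Matrix (Fin k) ι R, A = G⁻¹ * XXᵀ * M := ⟨_, rfl⟩
  have hAX : A * XX = 1 := by
    rw [hA, Matrix.mul_assoc, Matrix.mul_assoc, ← Matrix.mul_assoc XXᵀ, hGX, hGi]
  set W : Submodule R (ι → R) := LinearMap.ker (Matrix.mulVecLin A) with hW
  have hWk : ∀ w : W, A *ᵥ (w : ι → R) = 0 := by
    intro w
    have h := w.2
    simpa only [hW, LinearMap.mem_ker, Matrix.mulVecLin_apply] using h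
  let b := Module.finBasis R W
  set m := Module.finrank R W with hm
  -- projection to W
  have hproj : ∀ v : ι → R, v - XX *ᵥ (A *ᵥ v) ∈ W := by
    intro v
    simp only [hW, LinearMap.mem_ker, Matrix.mulVecLin_apply, Matrix.mulVec_sub,
      Matrix.mulVec_mulVec]
    rw [← Matrix.mul_assoc, hAX, Matrix.one_mul, sub_self]
  let pr : (ι → R) →ₗ[R] W :=
    { toFun := fun v => ⟨v - XX *ᵥ (A *ᵥ v), hproj v⟩
      map_add' := fun v w => by
        ext i
        simp [Matrix.mulVec_add]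
        ring
      map_smul' := fun a v => by
        ext i
        simp [Matrix.mulVec_smul]
        ring }
  set Y : Matrix ι (Fin m) R := Matrix.of fun i j => (b j : ι → R) i with hY
  let cf : (ι → R) →ₗ[R] (Fin m → R) := b.equivFun.toLinearMap ∘ₗ pr
  set C : Matrix (Fin m) ι R := LinearMap.toMatrix' cf with hC
  have hYv : ∀ t : Fin m → R, Y *ᵥ t = ((b.equivFun.symm t : W) : ι → R) := by
    intro t
    rw [Module.Basis.equivFun_symm_apply]
    ext i
    simp [Matrix.mulVec, dotProduct, hY, mul_comm]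
  have hCv : ∀ v : ι → R, C *ᵥ v = b.equivFun (pr v) := by
    intro v
    rw [hC, LinearMap.toMatrix'_mulVec]
    rfl
  have hAY : A * Y = 0 := by
    apply Matrix.ext_of_mulVec_single
    intro i
    rw [← Matrix.mulVec_mulVec, hYv, hWk, Matrix.zero_mulVec]
  have hYC : XX * A + Y * C = 1 := by
    apply Matrix.ext_of_mulVec_single
    intro i
    rw [Matrix.add_mulVec, ← Matrix.mulVec_mulVec, ← Matrix.mulVec_mulVec, hCv, hYv,
      LinearEquiv.symm_apply_apply, Matrix.one_mulVec]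
    change XX *ᵥ (A *ᵥ Pi.single i 1) + (Pi.single i 1 - XX *ᵥ (A *ᵥ Pi.single i 1)) = Pi.single i 1
    simp
  have hprX : ∀ s : Fin k → R, pr (XX *ᵥ s) = 0 := by
    intro s
    apply Subtype.ext
    change XX *ᵥ s - XX *ᵥ (A *ᵥ (XX *ᵥ s)) = 0
    rw [Matrix.mulVec_mulVec s A XX, hAX, Matrix.one_mulVec, sub_self]
  have hprY : ∀ w : W, pr w = w := by
    intro w
    apply Subtype.ext
    change (w : ι → R) - XX *ᵥ (A *ᵥ (w : ι → R)) = w
    rw [hWk, Matrix.mulVec_zero, sub_zero]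
  have hCX : C * XX = 0 := by
    apply Matrix.ext_of_mulVec_single
    intro i
    rw [← Matrix.mulVec_mulVec, hCv, hprX, map_zero, Matrix.zero_mulVec]
  have hCY : C * Y = 1 := by
    apply Matrix.ext_of_mulVec_single
    intro i
    rw [← Matrix.mulVec_mulVec, hCv, hYv, hprY, LinearEquiv.apply_symm_apply, Matrix.one_mulVec]
  have hMY : XXᵀ * M * Y = 0 := by
    have : XXᵀ * M = G * A := by
      rw [hA, Matrix.mul_assoc G⁻¹, ← Matrix.mul_assoc G, hGi', Matrix.one_mul]
    rw [this, Matrix.mul_assoc, hAY, Matrix.mul_zero]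
  have hMY' : Yᵀ * M * XX = 0 := by
    have := congrArg Matrix.transpose hMY
    rw [Matrix.transpose_mul, Matrix.transpose_mul, Matrix.transpose_transpose, hM.eq,
      ← Matrix.mul_assoc, Matrix.transpose_zero] at this
    exact this
  refine ⟨m, Yᵀ * M * Y, Matrix.fromCols XX Y, Matrix.fromRows A C, ?_, ?_, ?_⟩
  · rw [Matrix.fromCols_mul_fromRows, hYC]
  · rw [Matrix.fromRows_mul_fromCols, hAX, hAY, hCX, hCY, Matrix.fromBlocks_one]
  · rw [Matrix.transpose_fromCols, Matrix.fromRows_mul, Matrix.fromRows_mul_fromCols, hGX, hMY,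
      hMY']

end Pool.Agent.Q177.RL
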