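import Pool.Agent.Q177.RL.Cong

set_option autoImplicit false

/-!
# Even `ℤ_2`-lattices with the discriminant form of `D_4`
-/

open Matrix

namespace Pool.Agent.Q177.RL

theorem par (z : ℤ_[2]) : (∃ w, z = 2 * w) ∨ (∃ w, z = 1 + 2 * w) := by
  obtain ⟨n, hn, h⟩ := PadicInt.exists_mem_range z
  rw [PadicInt.maximalIdeal_eq_span_p, Ideal.mem_span_singleton] at h
  obtain ⟨w, hw⟩ := h
  have hn' : n = 0 ∨ n = 1 := by omega
  rcases hn' with rfl | rfl
  · left
    refine ⟨w, ?_⟩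
    have : z = (2 : ℕ) * w := by simpa using hw
    simpa using this
  · right
    refine ⟨w, ?_⟩
    have : z = 1 + (2 : ℕ) * w := by
      rw [← hw]; push_cast; ring
    simpa using this

theorem not_unit_two_mul (w : ℤ_[2]) : ¬ IsUnit (2 * w) := by
  intro h
  have h2 : IsUnit (2 : ℤ_[2]) := isUnit_of_mul_isUnit_left h
  have := PadicInt.p_nonunit (p := 2)
  exact this (by simpa using h2)

theorem unit_odd (w : ℤ_[2]) : IsUnit (1 + 2 * w) := by
  by_contra h
  rw [PadicInt.not_isUnit_iff, PadicInt.norm_lt_one_iff_dvd] at h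
  obtain ⟨v, hv⟩ := h
  have : IsUnit (2 * (v - w)) := by
    have e : 2 * (v - w) = (1 : ℤ_[2]) := by
      have : 1 + 2 * w = 2 * v := by simpa using hv
      linear_combination -this
    rw [e]; exact isUnit_one
  exact not_unit_two_mul _ this

theorem odd_of_unit {z : ℤ_[2]} (h : IsUnit z) : ∃ w, z = 1 + 2 * w := by
  rcases par z with ⟨w, rfl⟩ | h'
  · exact absurd h (not_unit_two_mul w)
  · exact h'

theorem unit_of_not_dvd {z : ℤ_[2]} (h : ¬ (2 : ℤ_[2]) ∣ z) : IsUnit z := by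
  rcases par z with ⟨w, rfl⟩ | ⟨w, rfl⟩
  · exact absurd (dvd_mul_right _ _) h
  · exact unit_odd w

theorem two_ne : (2 : ℤ_[2]) ≠ 0 := two_ne_zero

theorem four_ne : (4 : ℤ_[2]) ≠ 0 := by
  have : (4 : ℤ_[2]) = 2 * 2 := by norm_num
  rw [this]
  exact mul_ne_zero two_ne two_ne

theorem unit_three : IsUnit (3 : ℤ_[2]) := by
  have := unit_odd 1
  norm_num at this
  exact this

theorem not_dvd_one {w : ℤ_[2]} (h : (1 : ℤ_[2]) = 2 * w) : False :=
  not_unit_two_mul w (h ▸ isUnit_one)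

/-- Hensel's lemma for a quadratic polynomial -/
theorem hens (a b c : ℤ_[2]) (hb : IsUnit b) (hc : (2 : ℤ_[2]) ∣ c) :
    ∃ t, a * t ^ 2 + b * t + c = 0 := by
  have h := hensels_lemma (p := 2) (R := ℤ_[2])
    (F := Polynomial.C a * Polynomial.X ^ 2 + Polynomial.C b * Polynomial.X + Polynomial.C c)
    (a := 0) (by
      simp only [Polynomial.coe_aeval_eq_eval, Polynomial.eval_add, Polynomial.eval_mul,
        Polynomial.eval_C, Polynomial.eval_pow, Polynomial.eval_X, Polynomial.derivative_add,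
        Polynomial.derivative_mul, Polynomial.derivative_C, Polynomial.derivative_X_pow,
        Polynomial.derivative_X, Polynomial.eval_zero, Polynomial.eval_one]
      have h1 : ‖c‖ < 1 := by
        rw [PadicInt.norm_lt_one_iff_dvd]; simpa using hc
      have h2 : ‖b‖ = 1 := PadicInt.isUnit_iff.mp hb
      simpa [h2] using h1)
  obtain ⟨t, ht, -⟩ := h
  refine ⟨t, ?_⟩
  simpa [Polynomial.coe_aeval_eq_eval] using ht

/-- the hyperbolic plane -/
noncomputable def HH : Matrix (Fin 2) (Fin 2) ℤ_[2] := !![0, 1; 1, 0]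

/-- the other even unimodular plane -/
noncomputable def VV : Matrix (Fin 2) (Fin 2) ℤ_[2] := !![2, 1; 1, 2]

/-- the lattices in question -/
structure Good {ι : Type} [Fintype ι] (M : Matrix ι ι ℤ_[2]) : Prop where
  symm : M.IsSymm
  ev : ∀ x, ∃ a, gf M x x = 2 * a
  dp : ∀ x, (∀ y, (4 : ℤ_[2]) ∣ gf M x y) →
    (∃ z : ι → ℤ_[2], x = (4 : ℤ_[2]) • z) ∨ ∃ k, gf M x x = 16 + 32 * k

theorem Good.cong {ι κ : Type} [Fintype ι] [DecidableEq ι] [Fintype κ] [DecidableEq κ]
    {M : Matrix ι ι ℤ_[2]} {N : Matrix κ κ ℤ_[2]} (h : Cong M N) (hM : Good M) : Good N := by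
  refine ⟨h.symm_mat hM.symm, ?_, ?_⟩
  · obtain ⟨P, Q, h1, h2, rfl⟩ := h
    intro x
    rw [gf_cong]
    exact hM.ev _
  · obtain ⟨P, Q, h1, h2, rfl⟩ := h
    intro x hx
    rw [gf_cong]
    have := hM.dp (P *ᵥ x) (fun y => by
      have := hx (Q *ᵥ y)
      rwa [gf_cong, Matrix.mulVec_mulVec y P Q, h1, Matrix.one_mulVec] at this)
    rcases this with ⟨z, hz⟩ | h
    · left
      refine ⟨Q *ᵥ z, ?_⟩
      have := congrArg (fun v => Q *ᵥ v) hz
      simp only [Matrix.mulVec_mulVec, h2, Matrix.one_mulVec, Matrix.mulVec_smul] at this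
      exact this
    · right; exact h

theorem gf_blocks {R : Type} [CommRing R] {ι κ : Type} [Fintype ι] [Fintype κ]
    (A : Matrix ι ι R) (D : Matrix κ κ R) (x y : ι ⊕ κ → R) :
    gf (fromBlocks A 0 0 D) x y = gf A (x ∘ Sum.inl) (y ∘ Sum.inl) +
      gf D (x ∘ Sum.inr) (y ∘ Sum.inr) := by
  unfold gf
  rw [Matrix.fromBlocks_mulVec]
  simp [dotProduct, Fintype.sum_sum_type]

theorem Good.right {ι κ : Type} [Fintype ι] [Fintype κ]
    {A : Matrix ι ι ℤ_[2]} {D : Matrix κ κ ℤ_[2]} (h : Good (fromBlocks A 0 0 D)) : Good D := by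
  refine ⟨?_, ?_, ?_⟩
  · have := h.symm.eq
    rw [Matrix.fromBlocks_transpose, Matrix.fromBlocks_inj] at this
    exact this.2.2.2
  · intro x
    obtain ⟨a, ha⟩ := h.ev (Sum.elim 0 x)
    rw [gf_blocks] at ha
    refine ⟨a, ?_⟩
    simpa [gf_zero_left] using ha
  · intro x hx
    have := h.dp (Sum.elim 0 x) (fun y => by
      rw [gf_blocks]
      simpa [gf_zero_left] using hx (y ∘ Sum.inr))
    rcases this with ⟨z, hz⟩ | ⟨k, hk⟩
    · left
      refine ⟨z ∘ Sum.inr, ?_⟩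
      ext i
      have := congrFun hz (Sum.inr i)
      simpa using this
    · right
      refine ⟨k, ?_⟩
      rw [gf_blocks] at hk
      simpa [gf_zero_left] using hk

section
variable {ι : Type} [Fintype ι] [DecidableEq ι] (M : Matrix ι ι ℤ_[2])

/-- splitting a hyperbolic plane -/
theorem hyp_split (h : Good M) (v w : ι → ℤ_[2]) (hv : gf M v v = 0) (hw : IsUnit (gf M v w)) :
    ∃ (m : ℕ) (N : Matrix (Fin m) (Fin m) ℤ_[2]), Cong M (fromBlocks HH 0 0 N) := by
  obtain ⟨g, hg⟩ := hw.exists_left_inv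
  have hs := gf_comm M h.symm
  have hw1 : gf M v (g • w) = 1 := by rw [gf_smul_right, hg]
  generalize g • w = w1 at hw1
  obtain ⟨e, he⟩ := h.ev w1
  refine split M h.symm ![v, w1 + (-e) • v] HH ?_ ?_
  · have e1 : gf M v (w1 + (-e) • v) = 1 := by
      rw [gf_add_right, gf_smul_right, hv, hw1]
      ring
    have e2 : gf M (w1 + (-e) • v) (w1 + (-e) • v) = 0 := by
      simp only [gf_add_left, gf_add_right, gf_smul_left, gf_smul_right]
      rw [hs w1 v, hw1, he, hv]
      ring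
    intro j l
    fin_cases j <;> fin_cases l
    · simpa [HH] using hv
    · simpa [HH] using e1
    · simp only [HH]
      rw [hs]
      simpa using e1
    · simpa [HH] using e2
  · simp [HH, Matrix.det_fin_two]

/-- an isotropic vector -/
theorem hyp_vec (hs : M.IsSymm) (x y u : ι → ℤ_[2]) (a b c e : ℤ_[2]) (hb : IsUnit b)
    (hx : gf M x x = 2 * a) (hy : gf M y y = 2 * c) (hxy : gf M x y = b)
    (hu : gf M u u = 2 * e) (hxu : gf M x u = 0) (hyu : gf M y u = 0)
    (h : (2 : ℤ_[2]) ∣ a + e) :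
    ∃ v w, gf M v v = 0 ∧ IsUnit (gf M v w) := by
  obtain ⟨t, ht⟩ := hens c b (a + e) hb h
  have hc := gf_comm M hs
  refine ⟨x + t • y + u, y, ?_, ?_⟩
  · simp only [gf_add_left, gf_add_right, gf_smul_left, gf_smul_right]
    rw [hx, hy, hc y x, hxy, hu, hc u x, hxu, hc u y, hyu]
    linear_combination 2 * ht
  · simp only [gf_add_left, gf_smul_left]
    rw [hxy, hy, hc u y, hyu]
    obtain ⟨b', rfl⟩ := odd_of_unit hb
    have : 1 + 2 * b' + t * (2 * c) + 0 = 1 + 2 * (b' + t * c) := by ring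
    rw [this]
    exact unit_odd _

/-- normalising a plane -/
theorem plane (hs : M.IsSymm) (x y : ι → ℤ_[2]) (a b c : ℤ_[2]) (ha : IsUnit a) (hb : IsUnit b)
    (hc : IsUnit c) (hx : gf M x x = 2 * a) (hy : gf M y y = 2 * c) (hxy : gf M x y = b) :
    ∃ v w, gf M v v = 2 ∧ gf M v w = 1 ∧ gf M w w = 2 := by
  obtain ⟨a', rfl⟩ := odd_of_unit ha
  obtain ⟨b', rfl⟩ := odd_of_unit hb
  have hcomm := gf_comm M hs
  obtain ⟨t, ht⟩ := hens c (1 + 2 * b') (2 * a') hb ⟨a', rfl⟩
  have hu : IsUnit (1 + 2 * b' + t * (2 * c)) := by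
    have : 1 + 2 * b' + t * (2 * c) = 1 + 2 * (b' + t * c) := by ring
    rw [this]
    exact unit_odd _
  obtain ⟨g, hg⟩ := hu.exists_left_inv
  have hgu : IsUnit g := IsUnit.of_mul_eq_one _ hg
  obtain ⟨c', hc'⟩ := odd_of_unit (hc.mul (hgu.pow 2))
  obtain ⟨s, hs'⟩ := hens 3 3 (-2 * c') unit_three ⟨-c', by ring⟩
  obtain ⟨l, hl⟩ := (unit_odd s).exists_left_inv
  have e1 : gf M (x + t • y) (x + t • y) = 2 := by
    simp only [gf_add_left, gf_add_right, gf_smul_left, gf_smul_right]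
    rw [hx, hy, hcomm y x, hxy]
    linear_combination 2 * ht
  have e2 : gf M (x + t • y) (g • y) = 1 := by
    simp only [gf_add_left, gf_smul_left, gf_smul_right]
    rw [hxy, hy]
    linear_combination hg
  have e3 : gf M (g • y) (g • y) = 2 * (c * g ^ 2) := by
    rw [gf_smul_left, gf_smul_right, hy]; ring
  refine ⟨x + t • y, l • (g • y + s • (x + t • y)), e1, ?_, ?_⟩
  · rw [gf_smul_right, gf_add_right, e2, gf_smul_right, e1]
    linear_combination hl
  · rw [gf_smul_left, gf_smul_right, gf_add_left, gf_add_right, gf_add_right, e3]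
    rw [gf_smul_right M s, gf_smul_left M s, gf_smul_left M s, gf_smul_right M s, e1, e2,
      hcomm (g • y) (x + t • y), e2, hc']
    linear_combination (2 * l ^ 2) * (-1 : ℤ_[2]) * hs' +
      2 * (l * (1 + 2 * s) + 1) * hl

end

/-- the key facts if the form is divisible by two -/
theorem key4 {ι : Type} [Fintype ι] (M : Matrix ι ι ℤ_[2]) (h : Good M)
    (h2 : ∀ x y, (2 : ℤ_[2]) ∣ gf M x y) (x : ι → ℤ_[2]) (i : ι) (hx : x i = 1) :
    ∃ k, gf M x x = 4 + 8 * k := by
  have := h.dp ((2 : ℤ_[2]) • x) (fun y => by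
    obtain ⟨c, hc⟩ := h2 x y
    refine ⟨c, ?_⟩
    rw [gf_smul_left, hc]; ring)
  rcases this with ⟨z, hz⟩ | ⟨k, hk⟩
  · exfalso
    have := congrFun hz i
    simp only [Pi.smul_apply, smul_eq_mul, hx] at this
    apply not_dvd_one (w := z i)
    have h' : (2 : ℤ_[2]) * 1 = 2 * (2 * z i) := by linear_combination this
    exact mul_left_cancel₀ two_ne h'
  · refine ⟨k, ?_⟩
    rw [gf_smul_left, gf_smul_right] at hk
    have h' : (4 : ℤ_[2]) * gf M x x = 4 * (4 + 8 * k) := by linear_combination hk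
    exact mul_left_cancel₀ four_ne h'

theorem rem {n : ℕ} (M : Matrix (Fin n) (Fin n) ℤ_[2]) (h : Good M)
    (h2 : ∀ x y, (2 : ℤ_[2]) ∣ gf M x y) : n = 0 ∨ (n = 2 ∧ Cong M ((2 : ℤ_[2]) • VV)) := by
  have hcomm := gf_comm M h.symm
  have hd : ∀ i, ∃ k, M i i = 4 + 8 * k := by
    intro i
    have := key4 M h h2 (Pi.single i 1) i (by simp)
    rwa [gf_single] at this
  have ho : ∀ i j, i ≠ j → ∃ k, M i j = 2 + 4 * k := by
    intro i j hij
    obtain ⟨k, hk⟩ := key4 M h h2 (Pi.single i 1 + Pi.single j 1) i (by simp [hij])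
    rw [gf_add_left, gf_add_right, gf_add_right, hcomm (Pi.single j 1) (Pi.single i 1),
      gf_single, gf_single, gf_single] at hk
    obtain ⟨k1, hk1⟩ := hd i
    obtain ⟨k2, hk2⟩ := hd j
    refine ⟨k - 1 - k1 - k2, ?_⟩
    have h' : (2 : ℤ_[2]) * M i j = 2 * (2 + 4 * (k - 1 - k1 - k2)) := by
      linear_combination hk - hk1 - hk2
    exact mul_left_cancel₀ two_ne h'
  rcases n with _ | n
  · left; rfl
  rcases n with _ | n
  · exfalso
    have := h.dp (Pi.single 0 1) (fun y => by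
      have hy : y = y 0 • (Pi.single 0 1 : Fin 1 → ℤ_[2]) := by
        ext i; fin_cases i; simp
      rw [hy, gf_smul_right, gf_single]
      obtain ⟨k, hk⟩ := hd 0
      change (4 : ℤ_[2]) ∣ y 0 * M 0 0
      rw [hk]
      exact ⟨y 0 * (1 + 2 * k), by ring⟩)
    rcases this with ⟨z, hz⟩ | ⟨k, hk⟩
    · have := congrFun hz 0
      simp only [Pi.smul_apply, smul_eq_mul, Pi.single_eq_same] at this
      exact not_dvd_one (w := 2 * z 0) (by linear_combination this)
    · rw [gf_single] at hk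
      obtain ⟨k', hk'⟩ := hd 0
      have h4 : (4 : ℤ_[2]) * 1 = 4 * (2 * (2 + 4 * k - k')) := by
        linear_combination hk - hk'
      exact not_dvd_one (mul_left_cancel₀ four_ne h4)
  rcases n with _ | n
  · right
    refine ⟨rfl, ?_⟩
    obtain ⟨k0, hk0⟩ := hd 0
    obtain ⟨k1, hk1⟩ := hd 1
    obtain ⟨k, hk⟩ := ho 0 1 (by simp)
    have hk' : M 1 0 = 2 + 4 * k := by
      rw [← hk]; exact (h.symm.apply 1 0).symm
    obtain ⟨M', hM'⟩ : ∃ M' : Matrix (Fin 2) (Fin 2) ℤ_[2],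
        M' = !![2 * (1 + 2 * k0), 1 + 2 * k; 1 + 2 * k, 2 * (1 + 2 * k1)] := ⟨_, rfl⟩
    have hMM : M = (2 : ℤ_[2]) • M' := by
      ext i j
      fin_cases i <;> fin_cases j
      · simp [hM', hk0]; ring
      · simp [hM', hk]; ring
      · simp [hM', hk']; ring
      · simp [hM', hk1]; ring
    have hs' : M'.IsSymm := by
      rw [hM']
      ext i j
      fin_cases i <;> fin_cases j <;> simp
    obtain ⟨v, w, e1, e2, e3⟩ := plane M' hs' (Pi.single 0 1) (Pi.single 1 1) (1 + 2 * k0)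
      (1 + 2 * k) (1 + 2 * k1) (unit_odd _) (unit_odd _) (unit_odd _)
      (by rw [gf_single, hM']; simp) (by rw [gf_single, hM']; simp) (by rw [gf_single, hM']; simp)
    have e2' : gf M' w v = 1 := by rw [gf_comm M' hs', e2]
    obtain ⟨P, hP⟩ : ∃ P : Matrix (Fin 2) (Fin 2) ℤ_[2], P = !![v 0, w 0; v 1, w 1] := ⟨_, rfl⟩
    have hPV : Pᵀ * M' * P = VV := by
      simp only [gf, dotProduct, Matrix.mulVec, Fin.sum_univ_two] at e1 e2 e3 e2'
      ext i j
      fin_cases i <;> fin_cases j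
      · simp [hP, VV, Matrix.mul_apply, Fin.sum_univ_two]; linear_combination e1
      · simp [hP, VV, Matrix.mul_apply, Fin.sum_univ_two]; linear_combination e2
      · simp [hP, VV, Matrix.mul_apply, Fin.sum_univ_two]; linear_combination e2'
      · simp [hP, VV, Matrix.mul_apply, Fin.sum_univ_two]; linear_combination e3
    have hdetP : IsUnit P.det := by
      have := congrArg Matrix.det hPV
      rw [Matrix.det_mul, Matrix.det_mul, Matrix.det_transpose] at this
      have h3 : IsUnit (P.det * (M'.det * P.det)) := by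
        have : P.det * (M'.det * P.det) = 1 + 2 * 1 := by
          rw [← mul_assoc, this]
          simp [VV, Matrix.det_fin_two]
          norm_num
        rw [this]
        exact unit_odd 1
      exact isUnit_of_mul_isUnit_left h3
    refine ⟨P, P⁻¹, Matrix.mul_nonsing_inv _ hdetP, Matrix.nonsing_inv_mul _ hdetP, ?_⟩
    rw [hMM, ← hPV]
    simp
  · exfalso
    have h01 : (⟨0, by omega⟩ : Fin (n + 1 + 1 + 1)) ≠ ⟨1, by omega⟩ := by simp
    have h02 : (⟨0, by omega⟩ : Fin (n + 1 + 1 + 1)) ≠ ⟨2, by omega⟩ := by simp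
    have h12 : (⟨1, by omega⟩ : Fin (n + 1 + 1 + 1)) ≠ ⟨2, by omega⟩ := by simp
    generalize (⟨0, by omega⟩ : Fin (n + 1 + 1 + 1)) = i0 at h01 h02
    generalize (⟨1, by omega⟩ : Fin (n + 1 + 1 + 1)) = i1 at h01 h12
    generalize (⟨2, by omega⟩ : Fin (n + 1 + 1 + 1)) = i2 at h02 h12
    obtain ⟨k, hk⟩ := key4 M h h2 (Pi.single i0 1 + Pi.single i1 1 + Pi.single i2 1) i0 (by
      simp [h01, h02])
    obtain ⟨k0, hk0⟩ := hd i0
    obtain ⟨k1, hk1⟩ := hd i1
    obtain ⟨k2, hk2⟩ := hd i2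
    obtain ⟨l1, hl1⟩ := ho i0 i1 h01
    obtain ⟨l2, hl2⟩ := ho i0 i2 h02
    obtain ⟨l3, hl3⟩ := ho i1 i2 h12
    simp only [gf_add_left, gf_add_right] at hk
    rw [hcomm (Pi.single i1 1) (Pi.single i0 1), hcomm (Pi.single i2 1) (Pi.single i0 1),
      hcomm (Pi.single i2 1) (Pi.single i1 1)] at hk
    simp only [gf_single] at hk
    have h4 : (4 : ℤ_[2]) * 1 = 4 * (2 * (3 + k0 + k1 + k2 + l1 + l2 + l3 - k)) := by
      linear_combination -hk + hk0 + hk1 + hk2 + 2 * hl1 + 2 * hl2 + 2 * hl3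
    exact not_dvd_one (mul_left_cancel₀ four_ne h4)

end Pool.Agent.Q177.RL
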