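import Pool.Agent.Q177.RL.Two

set_option autoImplicit false

/-!
# RL-TWO: the 2-adic case of the genus of `2E_8 + D_4`
-/

open Matrix

namespace Pool.Agent.Q177.RL

theorem det_HH : HH.det = -1 := by simp [HH, Matrix.det_fin_two]

theorem det_VV : VV.det = 3 := by
  simp [VV, Matrix.det_fin_two]; norm_num

theorem det_2VV : ((2 : ℤ_[2]) • VV).det = 12 := by
  rw [Matrix.det_smul, det_VV]; simp; norm_num

theorem tri {n : ℕ} (M : Matrix (Fin n) (Fin n) ℤ_[2]) (h : Good M) (hd : ¬ IsUnit M.det) :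
    (∃ (m : ℕ) (N : Matrix (Fin m) (Fin m) ℤ_[2]), Cong M (fromBlocks HH 0 0 N)) ∨
    (n = 2 ∧ Cong M ((2 : ℤ_[2]) • VV)) ∨
    (n = 4 ∧ Cong M (fromBlocks VV 0 0 ((2 : ℤ_[2]) • VV))) := by
  by_cases h2 : ∀ x y, (2 : ℤ_[2]) ∣ gf M x y
  · rcases rem M h h2 with rfl | ⟨rfl, hc⟩
    · exact absurd (by simp) hd
    · exact Or.inr (Or.inl ⟨rfl, hc⟩)
  · push Not at h2
    obtain ⟨x, y, hxy⟩ := h2
    have hb := unit_of_not_dvd hxy
    obtain ⟨a, ha⟩ := h.ev x
    obtain ⟨c, hc⟩ := h.ev y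
    have hcomm := gf_comm M h.symm
    rcases par a with ⟨a', rfl⟩ | ⟨a', rfl⟩
    · left
      obtain ⟨v, w, hv, hw⟩ := hyp_vec M h.symm x y 0 (2 * a') _ c 0 hb ha hc rfl
        (by simp [gf_zero_left]) (gf_zero_right _ _) (gf_zero_right _ _) ⟨a', by ring⟩
      exact hyp_split M h v w hv hw
    rcases par c with ⟨c', rfl⟩ | ⟨c', rfl⟩
    · left
      obtain ⟨v, w, hv, hw⟩ := hyp_vec M h.symm y x 0 (2 * c') _ (1 + 2 * a') 0
        (by rwa [hcomm x y] at hb) hc ha rfl
        (by simp [gf_zero_left]) (gf_zero_right _ _) (gf_zero_right _ _) ⟨c', by ring⟩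
      exact hyp_split M h v w hv hw
    obtain ⟨v, w, e1, e2, e3⟩ := plane M h.symm x y _ _ _ (unit_odd a') hb (unit_odd c') ha hc rfl
    obtain ⟨m, N, hN⟩ := split M h.symm ![v, w] VV (by
      intro j l
      fin_cases j <;> fin_cases l
      · simpa [VV] using e1
      · simpa [VV] using e2
      · simp only [VV]
        rw [hcomm]
        simpa using e2
      · simpa [VV] using e3) (by rw [det_VV]; exact unit_three)
    have hg := Good.cong hN h
    have hgN := hg.right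
    by_cases hu : ∃ u e, gf N u u = 2 * e ∧ IsUnit e
    · left
      obtain ⟨u, e, hue, he⟩ := hu
      obtain ⟨e', rfl⟩ := odd_of_unit he
      obtain ⟨v', w', hv', hw'⟩ := hyp_vec (fromBlocks VV 0 0 N) hg.symm
        (Sum.elim (Pi.single 0 1) 0) (Sum.elim (Pi.single 1 1) 0) (Sum.elim 0 u) 1 1 1
        (1 + 2 * e') isUnit_one
        (by rw [gf_blocks]; simp only [Sum.elim_comp_inl, Sum.elim_comp_inr]
            rw [gf_single, gf_zero_left]; simp [VV])
        (by rw [gf_blocks]; simp only [Sum.elim_comp_inl, Sum.elim_comp_inr]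
            rw [gf_single, gf_zero_left]; simp [VV])
        (by rw [gf_blocks]; simp only [Sum.elim_comp_inl, Sum.elim_comp_inr]
            rw [gf_single, gf_zero_left]; simp [VV])
        (by rw [gf_blocks]; simp only [Sum.elim_comp_inl, Sum.elim_comp_inr]
            rw [gf_zero_left, hue]; ring)
        (by rw [gf_blocks]; simp only [Sum.elim_comp_inl, Sum.elim_comp_inr]
            rw [gf_zero_left, gf_zero_right]; ring)
        (by rw [gf_blocks]; simp only [Sum.elim_comp_inl, Sum.elim_comp_inr]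
            rw [gf_zero_left, gf_zero_right]; ring)
        ⟨1 + e', by ring⟩
      obtain ⟨m', N', hN'⟩ := hyp_split _ hg v' w' hv' hw'
      exact ⟨m', N', hN.trans hN'⟩
    · right; right
      have hev : ∀ u, ∃ f, gf N u u = 4 * f := by
        intro u
        obtain ⟨e, he⟩ := hgN.ev u
        rcases par e with ⟨f, rfl⟩ | ⟨f, rfl⟩
        · exact ⟨f, by rw [he]; ring⟩
        · exact absurd ⟨u, _, he, unit_odd f⟩ hu
      have h2' : ∀ x y, (2 : ℤ_[2]) ∣ gf N x y := by
        intro x y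
        obtain ⟨f, hf⟩ := hev (x + y)
        obtain ⟨f1, hf1⟩ := hev x
        obtain ⟨f2, hf2⟩ := hev y
        refine ⟨f - f1 - f2, ?_⟩
        rw [gf_add_left, gf_add_right, gf_add_right, gf_comm N hgN.symm y x] at hf
        have h' : (2 : ℤ_[2]) * gf N x y = 2 * (2 * (f - f1 - f2)) := by
          linear_combination hf - hf1 - hf2
        exact mul_left_cancel₀ two_ne h'
      rcases rem N hgN h2' with rfl | ⟨rfl, hc'⟩
      · exfalso
        obtain ⟨u, hu1, hu2⟩ := hN.det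
        rw [Matrix.det_fromBlocks_zero₂₁, det_VV, Matrix.det_isEmpty, mul_one] at hu2
        have := unit_three
        rw [hu2] at this
        exact hd (isUnit_of_mul_isUnit_right this)
      · refine ⟨?_, hN.trans ((Cong.refl VV).blocks hc')⟩
        have := hN.card
        simpa using this

theorem two_case (M : Matrix (Fin 2) (Fin 2) ℤ_[2]) (h : Good M) (hd : ¬ IsUnit M.det) :
    Cong M ((2 : ℤ_[2]) • VV) := by
  rcases tri M h hd with ⟨m, N, hN⟩ | ⟨-, hc⟩ | ⟨h4, -⟩
  · exfalso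
    have hm : m = 0 := by
      have := hN.card
      simp at this
      omega
    subst hm
    obtain ⟨u, hu1, hu2⟩ := hN.det
    rw [Matrix.det_fromBlocks_zero₂₁, det_HH, Matrix.det_isEmpty, mul_one] at hu2
    have h1 : IsUnit (-1 : ℤ_[2]) := isUnit_one.neg
    rw [hu2] at h1
    exact hd (isUnit_of_mul_isUnit_right h1)
  · exact hc
  · omega

theorem no_mix (w u : ℤ_[2]) (hw : IsUnit w) (hu : IsUnit u) (h : -w ^ 2 = 3 * u ^ 2) : False := by
  obtain ⟨p, rfl⟩ := odd_of_unit hw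
  obtain ⟨q, rfl⟩ := odd_of_unit hu
  have hpp : ∀ p : ℤ_[2], ∃ r, p + p ^ 2 = 2 * r := by
    intro p
    rcases par p with ⟨r, rfl⟩ | ⟨r, rfl⟩
    · exact ⟨r + 2 * r ^ 2, by ring⟩
    · exact ⟨1 + 3 * r + 2 * r ^ 2, by ring⟩
  obtain ⟨r, hr⟩ := hpp p
  obtain ⟨s, hs⟩ := hpp q
  have h4 : (4 : ℤ_[2]) * 1 = 4 * (2 * (-r - 3 * s)) := by
    linear_combination (-1 : ℤ_[2]) * h + (-4) * hr + (-12) * hs
  exact not_dvd_one (mul_left_cancel₀ four_ne h4)

theorem twelve_ne : (12 : ℤ_[2]) ≠ 0 := by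
  have : (12 : ℤ_[2]) = 4 * 3 := by norm_num
  rw [this]
  exact mul_ne_zero four_ne unit_three.ne_zero

theorem main : ∀ (n : ℕ) (M N : Matrix (Fin n) (Fin n) ℤ_[2]), Good M → Good N →
    ¬ IsUnit M.det → (∃ u, IsUnit u ∧ N.det = u ^ 2 * M.det) → Cong M N := by
  intro n
  induction n using Nat.strong_induction_on with
  | _ n ih =>
  intro M N hM hN hd hdet
  obtain ⟨u, hu, hdet⟩ := hdet
  have hd' : ¬ IsUnit N.det := by
    rw [hdet]
    intro h
    exact hd (isUnit_of_mul_isUnit_right h)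
  by_cases hn : n = 2
  · subst hn
    exact (two_case M hM hd).trans (two_case N hN hd').symm
  have hcard : ∀ {m : ℕ} {A : Matrix (Fin n) (Fin n) ℤ_[2]} {A' : Matrix (Fin m) (Fin m) ℤ_[2]},
      Cong A (fromBlocks HH 0 0 A') → n = 2 + m := by
    intro m A A' h
    have := h.card
    simpa using this
  have hnu : ∀ {m : ℕ} {A : Matrix (Fin n) (Fin n) ℤ_[2]} {A' : Matrix (Fin m) (Fin m) ℤ_[2]},
      ¬ IsUnit A.det → Cong A (fromBlocks HH 0 0 A') → ¬ IsUnit A'.det := by
    intro m A A' hA h hA'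
    obtain ⟨u, hu1, hu2⟩ := h.det
    rw [Matrix.det_fromBlocks_zero₂₁, det_HH] at hu2
    have h1 : IsUnit (-1 * A'.det) := isUnit_one.neg.mul hA'
    rw [hu2] at h1
    exact hA (isUnit_of_mul_isUnit_right h1)
  rcases tri M hM hd with ⟨m, M', hMM⟩ | ⟨h2, -⟩ | ⟨h4, hMM⟩
  · rcases tri N hN hd' with ⟨m', N', hNN⟩ | ⟨h2, -⟩ | ⟨h4, hNN⟩
    · have h1 := hcard hMM
      have h2 := hcard hNN
      have h3 : m' = m := by omega
      subst h3
      obtain ⟨u1, hu1, hu1'⟩ := hMM.det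
      obtain ⟨u2, hu2, hu2'⟩ := hNN.det
      rw [Matrix.det_fromBlocks_zero₂₁, det_HH] at hu1' hu2'
      obtain ⟨g, hg⟩ := hu1.exists_left_inv
      have hcong : Cong M' N' := by
        refine ih m' (by omega) M' N' (hM.cong hMM).right (hN.cong hNN).right (hnu hd hMM)
          ⟨u2 * u * g, (hu2.mul hu).mul (IsUnit.of_mul_eq_one _ hg), ?_⟩
        have e1 : N'.det = -(u2 ^ 2 * u ^ 2 * M.det) := by
          linear_combination (-1 : ℤ_[2]) * hu2' + (-u2 ^ 2) * hdet
        have e2 : M.det = -(g ^ 2 * M'.det) := by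
          linear_combination (-g ^ 2) * hu1' + (-(g * u1 + 1) * M.det) * hg
        rw [e1, e2]
        ring
      exact hMM.trans (((Cong.refl HH).blocks hcong).trans hNN.symm)
    · exact absurd h2 hn
    · exfalso
      have h1 := hcard hMM
      have hm : m = 2 := by omega
      subst hm
      have hM' := hMM.trans ((Cong.refl HH).blocks (two_case M' (hM.cong hMM).right (hnu hd hMM)))
      obtain ⟨u1, hu1, hu1'⟩ := hM'.det
      obtain ⟨u2, hu2, hu2'⟩ := hNN.det
      rw [Matrix.det_fromBlocks_zero₂₁, det_2VV] at hu1' hu2'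
      rw [det_HH] at hu1'
      rw [det_VV] at hu2'
      refine no_mix (u2 * u) u1 (hu2.mul hu) hu1 ?_
      have h12 : (12 : ℤ_[2]) * (-(u2 * u) ^ 2) = 12 * (3 * u1 ^ 2) := by
        linear_combination (u2 ^ 2 * u ^ 2) * hu1' - (u1 ^ 2) * hu2' - (u1 ^ 2 * u2 ^ 2) * hdet
      exact mul_left_cancel₀ twelve_ne h12
  · exact absurd h2 hn
  · rcases tri N hN hd' with ⟨m', N', hNN⟩ | ⟨h2, -⟩ | ⟨h4, hNN⟩
    · exfalso
      have h1 := hcard hNN
      have hm : m' = 2 := by omega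
      subst hm
      have hN' := hNN.trans ((Cong.refl HH).blocks (two_case N' (hN.cong hNN).right (hnu hd' hNN)))
      obtain ⟨u1, hu1, hu1'⟩ := hMM.det
      obtain ⟨u2, hu2, hu2'⟩ := hN'.det
      rw [Matrix.det_fromBlocks_zero₂₁, det_2VV] at hu1' hu2'
      rw [det_VV] at hu1'
      rw [det_HH] at hu2'
      refine no_mix u1 (u2 * u) hu1 (hu2.mul hu) ?_
      have h12 : (12 : ℤ_[2]) * (-u1 ^ 2) = 12 * (3 * (u2 * u) ^ 2) := by
        linear_combination (u1 ^ 2) * hu2' + (u1 ^ 2 * u2 ^ 2) * hdet - (u2 ^ 2 * u ^ 2) * hu1'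
      exact mul_left_cancel₀ twelve_ne h12
    · exact absurd h2 hn
    · exact hMM.trans hNN.symm

/-! ### From integral matrices -/

open Pool.Agent.Y813.RL Pool.Agent.Q248.RL

theorem bf_eq_gf {R : Type} [CommRing R] {ι : Type} [Fintype ι] (B : Matrix ι ι ℤ) (x y : ι → R) :
    bf B x y = gf (B.map (Int.cast : ℤ → R)) x y := by
  simp only [bf, gf, dotProduct, Matrix.mulVec, Matrix.map_apply, Finset.mul_sum]
  exact Finset.sum_congr rfl fun i _ => Finset.sum_congr rfl fun j _ => by ring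

theorem even_form {R : Type} [CommRing R] {ι : Type} [Fintype ι] (B : Matrix ι ι ℤ)
    (hs : B.IsSymm) (he : ∀ i, Even (B i i)) (x : ι → R) :
    ∃ a, gf (B.map (Int.cast : ℤ → R)) x x = 2 * a := by
  classical
  let _ : LinearOrder ι := LinearOrder.lift' (Fintype.equivFin ι) (Equiv.injective _)
  choose d hd using he
  obtain ⟨U, hU⟩ : ∃ U : Matrix ι ι ℤ, U = Matrix.of fun i j =>
    if i < j then B i j else if i = j then d i else 0 := ⟨_, rfl⟩
  have hB : B = U + Uᵀ := by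
    ext i j
    rcases lt_trichotomy i j with h | h | h
    · simp [hU, h, h.not_gt, h.ne']
    · subst h
      simp [hU, hd]
    · simp [hU, h, h.not_gt, h.ne']
      exact hs.apply j i |>.symm ▸ rfl
  refine ⟨gf (U.map (Int.cast : ℤ → R)) x x, ?_⟩
  have h1 : B.map (Int.cast : ℤ → R) = U.map (Int.cast : ℤ → R) + (U.map (Int.cast : ℤ → R))ᵀ := by
    rw [hB]
    ext i j
    simp
  rw [h1]
  unfold gf
  rw [Matrix.add_mulVec, dotProduct_add, Matrix.mulVec_transpose, dotProduct_comm x (x ᵥ* _),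
    ← Matrix.dotProduct_mulVec]
  ring

theorem good_of_QF {ι : Type} [Fintype ι] [DecidableEq ι] (B : Matrix ι ι ℤ)
    (hs : B.IsSymm) (he : ∀ i, Even (B i i)) (hQ : QF B) :
    Good (B.map (Int.cast : ℤ → ℤ_[2])) := by
  obtain ⟨M, hM⟩ : ∃ M, M = B.map (Int.cast : ℤ → ℤ_[2]) := ⟨_, rfl⟩
  obtain ⟨A, hA⟩ : ∃ A, A = B.adjugate.map (Int.cast : ℤ → ℤ_[2]) := ⟨_, rfl⟩
  have hAM : A * M = (4 : ℤ_[2]) • (1 : Matrix ι ι ℤ_[2]) := by
    have h := Matrix.adjugate_mul B
    rw [hQ.1] at h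
    have h' := congrArg (fun X : Matrix ι ι ℤ => X.map (Int.castRingHom ℤ_[2])) h
    simp only [Matrix.map_mul] at h'
    rw [hA, hM]
    refine Eq.trans h' ?_
    ext i j
    simp only [Matrix.map_apply, Matrix.smul_apply, Matrix.one_apply, smul_eq_mul]
    split_ifs <;> simp
  have hsM : M.IsSymm := by
    rw [hM]
    unfold Matrix.IsSymm
    rw [← Matrix.transpose_map, hs.eq]
  rw [← hM]
  refine ⟨hsM, ?_, ?_⟩
  · intro x
    rw [hM]
    exact even_form B hs he x
  · intro x hx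
    have h1 : ∀ i, ∃ c, (M *ᵥ x) i = 4 * c := by
      intro i
      obtain ⟨c, hc⟩ := hx (Pi.single i 1)
      refine ⟨c, ?_⟩
      rw [gf_comm M hsM] at hc
      rw [← hc]
      simp [gf]
    choose μ hμ using h1
    have hMx : M *ᵥ x = (4 : ℤ_[2]) • μ := by
      ext i; simp [hμ]
    have hxA : x = A *ᵥ μ := by
      have h := congrArg (fun v => A *ᵥ v) hMx
      simp only [Matrix.mulVec_mulVec, hAM, Matrix.mulVec_smul, Matrix.smul_mulVec,
        Matrix.one_mulVec] at h
      ext i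
      have := congrFun h i
      simp only [Pi.smul_apply, smul_eq_mul] at this
      exact mul_left_cancel₀ four_ne this
    have h2 : ∀ i, ∃ (a : ℤ) (ν : ℤ_[2]), μ i = a + 8 * ν := by
      intro i
      have := PadicInt.appr_spec 3 (μ i)
      rw [Ideal.mem_span_singleton] at this
      obtain ⟨c, hc⟩ := this
      refine ⟨(PadicInt.appr (μ i) 3 : ℕ), c, ?_⟩
      push_cast at hc ⊢
      linear_combination hc
    choose m ν hm using h2
    have hμ' : μ = (fun i => (m i : ℤ_[2])) + (8 : ℤ_[2]) • ν := by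
      ext i; simp [hm]
    rcases hQ.2 m with ⟨v, hv⟩ | ⟨k, hk⟩
    · left
      have hv' : (fun i => (m i : ℤ_[2])) = M *ᵥ (fun i => (v i : ℤ_[2])) := by
        ext i
        rw [hv]
        simp [Matrix.mulVec, dotProduct, hM]
      refine ⟨(fun i => (v i : ℤ_[2])) + (2 : ℤ_[2]) • (A *ᵥ ν), ?_⟩
      rw [hxA, hμ', hv', Matrix.mulVec_add, Matrix.mulVec_mulVec, hAM, Matrix.mulVec_smul,
        Matrix.smul_mulVec, Matrix.one_mulVec, smul_add, smul_smul]
      norm_num
    · right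
      have hk' : gf A (fun i => (m i : ℤ_[2])) (fun i => (m i : ℤ_[2])) = 8 * k + 4 := by
        rw [hA, ← bf_eq_gf]
        have := congrArg (Int.cast : ℤ → ℤ_[2]) hk
        simp only [bf] at this ⊢
        push_cast at this
        simpa using this
      have h3 : gf M x x = 4 * gf A μ μ := by
        unfold gf
        rw [hMx, hxA, dotProduct_smul, smul_eq_mul, dotProduct_comm]
      refine ⟨k + gf A (fun i => (m i : ℤ_[2])) ν + gf A ν (fun i => (m i : ℤ_[2])) +
        8 * gf A ν ν, ?_⟩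
      rw [h3, hμ']
      simp only [gf_add_left, gf_add_right, gf_smul_left, gf_smul_right]
      rw [hk']
      ring

theorem two : S_Two := by
  intro ι κ _ _ _ _ B C hcard hB hC hBe hCe hBQ hCQ
  obtain ⟨M, hM⟩ : ∃ M, M = B.map (Int.cast : ℤ → ℤ_[2]) := ⟨_, rfl⟩
  obtain ⟨N, hN⟩ : ∃ N, N = C.map (Int.cast : ℤ → ℤ_[2]) := ⟨_, rfl⟩
  have gM : Good M := hM ▸ good_of_QF B hB hBe hBQ
  have gN : Good N := hN ▸ good_of_QF C hC hCe hCQ
  have dM : M.det = 4 := by
    have := (Int.castRingHom ℤ_[2]).map_det B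
    rw [hBQ.1] at this
    rw [hM]
    simpa using this.symm
  have dN : N.det = 4 := by
    have := (Int.castRingHom ℤ_[2]).map_det C
    rw [hCQ.1] at this
    rw [hN]
    simpa using this.symm
  let σ : Fin (Fintype.card ι) ≃ ι := (Fintype.equivFin ι).symm
  let τ : Fin (Fintype.card ι) ≃ κ := (finCongr hcard).trans (Fintype.equivFin κ).symm
  have hc : Cong M N := by
    have h1 := Cong.reindex M σ
    have h2 := Cong.reindex N τ
    refine h1.trans ((main _ _ _ (gM.cong h1) (gN.cong h2) ?_ ⟨1, isUnit_one, ?_⟩).trans h2.symm)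
    · rw [Matrix.det_submatrix_equiv_self, dM]
      have : (4 : ℤ_[2]) = 2 * 2 := by norm_num
      rw [this]
      exact not_unit_two_mul 2
    · rw [Matrix.det_submatrix_equiv_self, Matrix.det_submatrix_equiv_self, dM, dN]
      ring
  obtain ⟨P, Q, h1, h2, h3⟩ := hc
  refine ⟨Matrix.toLin'OfInv h1 h2, fun x y => ?_⟩
  have hQx : ∀ x : ι → ℤ_[2], (Matrix.toLin'OfInv h1 h2) x = Q *ᵥ x := fun x => rfl
  rw [hQx, hQx, bf_eq_gf, bf_eq_gf, ← hM, ← hN, ← h3, gf_cong, Matrix.mulVec_mulVec,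
    Matrix.mulVec_mulVec, h1, Matrix.one_mulVec, Matrix.one_mulVec]

end Pool.Agent.Q177.RL
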